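import Pool.Agent.Helper96.SP.RSEPA
import Mathlib.Algebra.BigOperators.Fin

/-!
# Even derivations of tensor powers
-/

open CategoryTheory MonoidalCategory Limits BraidedCategory

universe u v w

namespace Pool.Agent.Helper18.EN

open Pool.Agent.TH90.AB Pool.Agent.TH90.Kim Pool.Agent.Helper96.Kim Pool.Agent.Helper96.SP

set_option linter.unusedSectionVars false

section real

variable {𝒜 : Type u} [Category.{v} 𝒜] [MonoidalCategory 𝒜] [SymmetricCategory 𝒜]
  [Preadditive 𝒜] [MonoidalPreadditive 𝒜] [Linear ℚ 𝒜] [MonoidalLinear ℚ 𝒜]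
  {K : Type w} [Field K] [CharZero K] {F : Realisation 𝒜 K}
  [hdual : ∀ X : 𝒜, HasRightDual X] {M : 𝒜} {ι : Type} [Fintype ι] [DecidableEq ι]

/-- The operator `A` on the factor with the index `k` of the tensor power. -/
noncomputable def pos (b : Module.Basis ι K (F.V M)) (A : F.V M →ₗ[K] F.V M) :
    ∀ n : ℕ, Fin n → (F.V (T M n) →ₗ[K] F.V (T M n))
  | 0 => fun k => k.elim0
  | n + 1 => Fin.cases (motive := fun _ => F.V (T M (n + 1)) →ₗ[K] F.V (T M (n + 1)))
      (Classical.choose (SepA.kun b (X := T M n) (Y := T M (n + 1)) (F.ext.compl₂ A)))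
      (fun j => Classical.choose (SepA.kun b (X := T M n) (Y := T M (n + 1))
        (F.ext ∘ₗ pos b A n j)))

theorem pos_zero (b : Module.Basis ι K (F.V M)) (A : F.V M →ₗ[K] F.V M) (n : ℕ)
    (y : F.V (T M n)) (x : F.V M) :
    pos b A (n + 1) 0 (F.ext y x) = F.ext y (A x) :=
  Classical.choose_spec (SepA.kun b (X := T M n) (Y := T M (n + 1)) (F.ext.compl₂ A)) y x

theorem pos_succ (b : Module.Basis ι K (F.V M)) (A : F.V M →ₗ[K] F.V M) (n : ℕ) (j : Fin n)
    (y : F.V (T M n)) (x : F.V M) :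
    pos b A (n + 1) j.succ (F.ext y x) = F.ext (pos b A n j y) x :=
  Classical.choose_spec (SepA.kun b (X := T M n) (Y := T M (n + 1)) (F.ext ∘ₗ pos b A n j)) y x

theorem pos_wd (b : Module.Basis ι K (F.V M)) (A : F.V M →ₗ[K] F.V M) (n : ℕ) (k : Fin n)
    (v : Fin n → F.V M) :
    pos b A n k (wd F n v) = wd F n (Function.update v k (A (v k))) := by
  induction n with
  | zero => exact k.elim0
  | succ n ih =>
    refine Fin.cases ?_ (fun j => ?_) k
    · refine (pos_zero b A n _ _).trans ?_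
      change F.ext _ _ = F.ext _ _
      rw [Function.update_self]
      congr 3
    · refine (pos_succ b A n j _ _).trans ?_
      rw [ih]
      change F.ext _ _ = F.ext _ _
      rw [Function.update_of_ne (Fin.succ_ne_zero j).symm]
      congr 3
      funext i
      by_cases h : i = j
      · rw [h, Function.update_self, Function.update_self]
      · rw [Function.update_of_ne h, Function.update_of_ne (fun h' => h (Fin.succ_injective _ h'))]

theorem ext_wd (b : Module.Basis ι K (F.V M)) {n : ℕ} {Y : 𝒜} {f g : F.V (T M n) →ₗ[K] F.V Y}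
    (h : ∀ w : Fin n → ι, f (wd F n fun j => b (w j)) = g (wd F n fun j => b (w j))) : f = g := by
  obtain ⟨B, hB⟩ := wd_basis (F := F) b n
  refine B.ext fun w => ?_
  rw [hB, h]

/-- exchange of two homogeneous factors -/
theorem sw_ext (X : 𝒜) (y : F.V X) (x z : F.V M) (s t : ℚ) (hs : s = 1 ∨ s = -1)
    (ht : t = 1 ∨ t = -1) (hx : F.par M x = (s : K) • x) (hz : F.par M z = (t : K) • z) :
    F.map (sw X M) (F.ext (F.ext y x) z) =
      ((if s = -1 ∧ t = -1 then -1 else 1 : ℚ) : K) • F.ext (F.ext y z) x := by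
  unfold sw
  rw [F.map_comp, F.map_comp, F.assoc, F.whiskerLeft, WDS.koszul F x z s t hs ht hx hz,
    _root_.map_smul, _root_.map_smul, F.assoc_inv]

theorem pos_perm {φ : Fam M} (hφ : PA φ) (b : Module.Basis ι K (F.V M)) (δ : ι → ℚ)
    (hδ : ∀ i, δ i = 1 ∨ δ i = -1) (hb : ∀ i, F.par M (b i) = (δ i : K) • b i)
    (A : F.V M →ₗ[K] F.V M) (hA : ∀ x, F.par M (A x) = A (F.par M x)) (n : ℕ)
    (g : Equiv.Perm (Fin n)) : ∀ (k : Fin n) (z : F.V (T M n)),
      F.map (φ n g : T M n ⟶ T M n) (pos b A n k z) =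
        pos b A n (g k) (F.map (φ n g : T M n ⟶ T M n) z) := by
  refine WD.ind (P := fun n g => ∀ (k : Fin n) (z : F.V (T M n)),
      F.map (φ n g : T M n ⟶ T M n) (pos b A n k z) =
        pos b A n (g k) (F.map (φ n g : T M n ⟶ T M n) z)) ?_ ?_ ?_ ?_ n g
  · intro n k z
    have e : (φ n 1 : T M n ⟶ T M n) = 𝟙 _ := map_one (φ n)
    rw [e, F.map_id, F.map_id]
    rfl
  · intro n g h hg hh k z
    have e : (φ n (g * h) : T M n ⟶ T M n) = (φ n h : T M n ⟶ T M n) ≫ (φ n g : T M n ⟶ T M n) :=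
      map_mul (φ n) g h
    rw [e, F.map_comp, F.map_comp, hh, hg]
    rfl
  · intro n g hg k z
    obtain ⟨m, y, x, rfl⟩ := F.exists_sum (X := T M n) (Y := M) z
    rw [map_sum, map_sum, map_sum, map_sum]
    refine Finset.sum_congr rfl fun i _ => ?_
    rw [hφ.up]
    have e1 : ∀ (u : F.V (T M n)) (v : F.V M),
        F.map ((φ n g : T M n ⟶ T M n) ▷ M : T M n ⊗ M ⟶ T M n ⊗ M) (F.ext u v) =
        F.ext (F.map (φ n g : T M n ⟶ T M n) u) v := fun u v => F.whiskerRight _ _ _
    refine Fin.cases ?_ (fun j => ?_) k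
    · rw [WD.up_zero]
      have h1 := congrArg (F.map ((φ n g : T M n ⟶ T M n) ▷ M : T M n ⊗ M ⟶ T M n ⊗ M))
        (pos_zero b A n (y i) (x i))
      refine h1.trans ((e1 _ _).trans ?_)
      have h2 := congrArg (pos b A (n + 1) 0) (e1 (y i) (x i))
      exact ((h2.trans (pos_zero b A n _ _))).symm
    · rw [WD.up_succ]
      have h1 := congrArg (F.map ((φ n g : T M n ⟶ T M n) ▷ M : T M n ⊗ M ⟶ T M n ⊗ M))
        (pos_succ b A n j (y i) (x i))
      refine h1.trans ((e1 _ _).trans ?_)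
      have h2 := congrArg (pos b A (n + 1) (g j).succ) (e1 (y i) (x i))
      refine Eq.trans ?_ ((h2.trans (pos_succ b A n _ _ _))).symm
      rw [hg]
  · intro n k z
    rw [hφ.swap]
    have key : F.map (sw (T M n) M) ∘ₗ pos b A (n + 2) k =
        pos b A (n + 2) (Equiv.swap 0 1 k) ∘ₗ F.map (sw (T M n) M) := by
      refine ext_wd (Y := T M (n + 2)) b fun w => ?_
      rw [LinearMap.comp_apply, LinearMap.comp_apply]
      have hw : (wd F (n + 2) fun j => b (w j)) =
          F.ext (F.ext (wd F n fun j => b (w j.succ.succ)) (b (w 1))) (b (w 0)) := rfl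
      rw [hw]
      have e0 := sw_ext (F := F) (T M n) (wd F n fun j => b (w j.succ.succ)) (b (w 1)) (b (w 0)) _ _
        (hδ (w 1)) (hδ (w 0)) (hb _) (hb _)
      have hAb : ∀ i, F.par M (A (b i)) = (δ i : K) • A (b i) := by
        intro i
        rw [hA, hb, _root_.map_smul]
      refine Fin.cases ?_ (fun j => ?_) k
      · have s1 : (Equiv.swap 0 1 : Equiv.Perm (Fin (n + 2))) 0 = (0 : Fin (n + 1)).succ :=
          Equiv.swap_apply_left _ _
        rw [s1]
        have h1 := congrArg (F.map (sw (T M n) M)) (pos_zero b A (n + 1)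
          (F.ext (wd F n fun j => b (w j.succ.succ)) (b (w 1))) (b (w 0)))
        refine h1.trans ?_
        refine (sw_ext (F := F) (T M n) (wd F n fun j => b (w j.succ.succ)) (b (w 1)) (A (b (w 0)))
          _ _ (hδ (w 1)) (hδ (w 0)) (hb _) (hAb _)).trans ?_
        refine Eq.trans ?_ (congrArg (pos b A (n + 2) (0 : Fin (n + 1)).succ) e0).symm
        refine Eq.trans ?_ (_root_.map_smul _ _ _).symm
        congr 1
        refine Eq.trans ?_ (pos_succ b A (n + 1) 0 _ _).symm
        have h2 := pos_zero b A n (wd F n fun j => b (w j.succ.succ)) (b (w 0))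
        exact (congrArg (fun u => F.ext u (b (w 1))) h2).symm
      · refine Fin.cases ?_ (fun l => ?_) j
        · have s1 : (Equiv.swap 0 1 : Equiv.Perm (Fin (n + 2))) (0 : Fin (n + 1)).succ = 0 :=
            Equiv.swap_apply_right _ _
          rw [s1]
          have h2 := pos_zero b A n (wd F n fun j => b (w j.succ.succ)) (b (w 1))
          have h1 := congrArg (F.map (sw (T M n) M)) ((pos_succ b A (n + 1) 0
            (F.ext (wd F n fun j => b (w j.succ.succ)) (b (w 1))) (b (w 0))).trans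
            (congrArg (fun u => F.ext u (b (w 0))) h2))
          refine h1.trans ?_
          refine (sw_ext (F := F) (T M n) (wd F n fun j => b (w j.succ.succ)) (A (b (w 1)))
            (b (w 0)) _ _ (hδ (w 1)) (hδ (w 0)) (hAb _) (hb _)).trans ?_
          refine Eq.trans ?_ (congrArg (pos b A (n + 2) 0) e0).symm
          refine Eq.trans ?_ (_root_.map_smul _ _ _).symm
          congr 1
          exact (pos_zero b A (n + 1) _ _).symm
        · have s1 : (Equiv.swap 0 1 : Equiv.Perm (Fin (n + 2))) l.succ.succ = l.succ.succ := by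
            refine Equiv.swap_apply_of_ne_of_ne (Fin.succ_ne_zero _) ?_
            intro h
            exact Fin.succ_ne_zero l (Fin.succ_injective _ h)
          rw [s1]
          have h2 := fun x : F.V M => pos_succ b A n l (wd F n fun j => b (w j.succ.succ)) x
          have h1 := congrArg (F.map (sw (T M n) M)) ((pos_succ b A (n + 1) l.succ
            (F.ext (wd F n fun j => b (w j.succ.succ)) (b (w 1))) (b (w 0))).trans
            (congrArg (fun u => F.ext u (b (w 0))) (h2 (b (w 1)))))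
          refine h1.trans ?_
          refine (sw_ext (F := F) (T M n) _ (b (w 1))
            (b (w 0)) _ _ (hδ (w 1)) (hδ (w 0)) (hb _) (hb _)).trans ?_
          refine Eq.trans ?_ (congrArg (pos b A (n + 2) l.succ.succ) e0).symm
          refine Eq.trans ?_ (_root_.map_smul _ _ _).symm
          congr 1
          refine Eq.trans ?_ (pos_succ b A (n + 1) l.succ _ _).symm
          exact (congrArg (fun u => F.ext u (b (w 1))) (h2 (b (w 0)))).symm
    exact LinearMap.congr_fun key z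

/-- the position operator, linear in the operator -/
noncomputable def posL (b : Module.Basis ι K (F.V M)) (n : ℕ) (k : Fin n) :
    (F.V M →ₗ[K] F.V M) →ₗ[K] (F.V (T M n) →ₗ[K] F.V (T M n)) where
  toFun A := pos b A n k
  map_add' A B := by
    refine ext_wd (Y := T M n) b fun w => ?_
    rw [LinearMap.add_apply, pos_wd, pos_wd, pos_wd, LinearMap.add_apply, ← WD.wdM_apply,
      ← WD.wdM_apply, ← WD.wdM_apply, MultilinearMap.map_update_add]
  map_smul' c A := by
    refine ext_wd (Y := T M n) b fun w => ?_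
    rw [RingHom.id_apply, LinearMap.smul_apply, pos_wd, pos_wd, LinearMap.smul_apply,
      ← WD.wdM_apply, ← WD.wdM_apply, MultilinearMap.map_update_smul]

theorem posL_apply (b : Module.Basis ι K (F.V M)) (n : ℕ) (k : Fin n) (A : F.V M →ₗ[K] F.V M) :
    posL b n k A = pos b A n k := rfl

/-- every index is the image of the last one under `n!` permutations -/
theorem sum_last {E : Type*} [AddCommGroup E] [Module K E] (n : ℕ) (f : Fin (n + 1) → E) :
    ∑ g : Equiv.Perm (Fin (n + 1)), f (g⁻¹ (Fin.last n)) = (n.factorial : K) • ∑ k, f k := by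
  have h1 : ∑ g : Equiv.Perm (Fin (n + 1)), f (g⁻¹ (Fin.last n)) =
      ∑ g : Equiv.Perm (Fin (n + 1)), f (g (Fin.last n)) :=
    Fintype.sum_equiv (Equiv.inv _) _ _ fun g => rfl
  have h2 : ∑ g : Equiv.Perm (Fin (n + 1)), f (g (Fin.last n)) =
      ∑ g : Equiv.Perm (Fin (n + 1)), f (g 0) := by
    refine Fintype.sum_equiv (Equiv.mulRight (Equiv.swap 0 (Fin.last n))) _ _ fun g => ?_
    change f (g (Fin.last n)) = f (g (Equiv.swap 0 (Fin.last n) 0))
    rw [Equiv.swap_apply_left]
  have h3 : ∑ g : Equiv.Perm (Fin (n + 1)), f (g 0) =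
      ∑ q : Fin (n + 1) × Equiv.Perm (Fin n), f q.1 := by
    refine Fintype.sum_equiv Equiv.Perm.decomposeFin _ _ fun g => ?_
    congr 1
    obtain ⟨q, rfl⟩ := Equiv.Perm.decomposeFin.symm.surjective g
    rw [Equiv.apply_symm_apply]
    obtain ⟨p, e⟩ := q
    rw [Equiv.Perm.decomposeFin_symm_apply_zero]
  rw [h1, h2, h3, Fintype.sum_prod_type, Finset.smul_sum]
  refine Finset.sum_congr rfl fun k _ => ?_
  change ∑ _y : Equiv.Perm (Fin n), f k = _
  rw [Finset.sum_const, Finset.card_univ, Fintype.card_perm, Fintype.card_fin, Nat.cast_smul_eq_nsmul]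

end real

section cat

variable {𝒜 : Type u} [Category.{v} 𝒜] [MonoidalCategory 𝒜] [SymmetricCategory 𝒜]
  [Preadditive 𝒜] [MonoidalPreadditive 𝒜] [Linear ℚ 𝒜] [MonoidalLinear ℚ 𝒜]
  {K : Type w} [Field K] [CharZero K] {F : Realisation 𝒜 K}

theorem eder [hdual : ∀ X : 𝒜, HasRightDual X] {M : 𝒜} {φ : Fam M} (hφ : PA φ) {d : ℕ}
    (b : Module.Basis (Fin d) K (F.V M)) (δ : Fin d → ℚ) (hδ : ∀ i, δ i = 1 ∨ δ i = -1)
    (hb : ∀ i, F.par M (b i) = (δ i : K) • b i) (n : ℕ)
    (Λ : (F.V M →ₗ[K] F.V M) →ₗ[K] (F.V (T M (n + 1)) →ₗ[K] F.V (T M (n + 1))))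
    (hΛ : ∀ (x : F.V M →ₗ[K] F.V M) (v : Fin (n + 1) → F.V M), Λ x (wd F (n + 1) v) =
        wd F (n + 1) (Function.update v (Fin.last n) (x (v (Fin.last n))))) :
    ∃ Δ : (F.V M →ₗ[K] F.V M) →ₗ[K] (F.V (T M (n + 1)) →ₗ[K] F.V (T M (n + 1))),
      (∀ A v, Δ A (wd F (n + 1) v) = ∑ k, wd F (n + 1) (Function.update v k (A (v k)))) ∧
      (∀ A, (∀ x, F.par M (A x) = A (F.par M x)) → ∀ (e : QS (n + 1)) z,
        Δ A (F.map (rh φ (n + 1) e) z) = F.map (rh φ (n + 1) e) (Δ A z)) ∧
      (∀ A, (∀ x, F.par M (A x) = A (F.par M x)) →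
        ∑ g : Equiv.Perm (Fin (n + 1)), F.map (φ (n + 1) g⁻¹ : T M (n + 1) ⟶ T M (n + 1)) ∘ₗ
          Λ A ∘ₗ F.map (φ (n + 1) g : T M (n + 1) ⟶ T M (n + 1)) =
            (n.factorial : K) • Δ A) := by
  have hLam : ∀ A, Λ A = pos b A (n + 1) (Fin.last n) := by
    intro A
    refine ext_wd (Y := T M (n + 1)) b fun w => ?_
    rw [hΛ, pos_wd]
  refine ⟨∑ k, posL b (n + 1) k, fun A v => ?_, fun A hA e z => ?_, fun A hA => ?_⟩
  · rw [LinearMap.sum_apply, LinearMap.sum_apply]
    refine Finset.sum_congr rfl fun k _ => ?_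
    rw [posL_apply, pos_wd]
  · rw [LinearMap.sum_apply]
    have h1 : ∀ g : Equiv.Perm (Fin (n + 1)),
        (∑ k, posL b (n + 1) k A) (F.map (φ (n + 1) g : T M (n + 1) ⟶ T M (n + 1)) z) =
          F.map (φ (n + 1) g : T M (n + 1) ⟶ T M (n + 1)) ((∑ k, posL b (n + 1) k A) z) := by
      intro g
      rw [LinearMap.sum_apply, LinearMap.sum_apply, map_sum]
      refine (Fintype.sum_equiv g _ _ fun k => ?_).symm
      exact pos_perm hφ b δ hδ hb A hA (n + 1) g k z
    rw [WD.rh_eq, WD.map_sum', WD.map_sum', map_sum]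
    refine Finset.sum_congr rfl fun g _ => ?_
    rw [F.map_smul, F.map_smul, _root_.map_smul, h1]
  · rw [LinearMap.sum_apply]
    have h1 : ∀ g : Equiv.Perm (Fin (n + 1)),
        F.map (φ (n + 1) g⁻¹ : T M (n + 1) ⟶ T M (n + 1)) ∘ₗ
          Λ A ∘ₗ F.map (φ (n + 1) g : T M (n + 1) ⟶ T M (n + 1)) =
            posL b (n + 1) (g⁻¹ (Fin.last n)) A := by
      intro g
      refine LinearMap.ext fun z => ?_
      rw [LinearMap.comp_apply, LinearMap.comp_apply, hLam, pos_perm hφ b δ hδ hb A hA, posL_apply,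
        ← F.map_comp]
      have e : (φ (n + 1) (g⁻¹ * g) : T M (n + 1) ⟶ T M (n + 1)) =
        (φ (n + 1) g : T M (n + 1) ⟶ T M (n + 1)) ≫ (φ (n + 1) g⁻¹ : T M (n + 1) ⟶ T M (n + 1)) :=
        map_mul (φ (n + 1)) g⁻¹ g
      rw [← e, inv_mul_cancel]
      have e1 : (φ (n + 1) 1 : T M (n + 1) ⟶ T M (n + 1)) = 𝟙 _ := map_one (φ (n + 1))
      rw [e1, F.map_id]
    rw [Finset.sum_congr rfl fun g _ => h1 g]
    exact sum_last n fun k => posL b (n + 1) k A

end cat

end Pool.Agent.Helper18.EN
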